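import Mathlib

/-!
# Gluing increasing homeomorphisms of the line along a deck transformation
-/

set_option autoImplicit false

namespace Run7.h824

variable {τ : ℝ ≃o ℝ}

theorem zpow_strictMono (hτ : ∀ x, x < τ x) (c : ℝ) : StrictMono fun k : ℤ => (τ ^ k) c := by
  refine strictMono_int_of_lt_succ fun k => ?_
  show (τ ^ k) c < (τ ^ (k + 1)) c
  rw [add_comm, zpow_add, zpow_one, RelIso.mul_apply]
  exact hτ _

theorem exists_lt_zpow (hτ : ∀ x, x < τ x) (c y : ℝ) : ∃ k : ℤ, y < (τ ^ k) c := by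
  by_contra hcon
  push Not at hcon
  have hb : BddAbove (Set.range fun k : ℤ => (τ ^ k) c) := ⟨y, by rintro _ ⟨k, rfl⟩; exact hcon k⟩
  have hne : (Set.range fun k : ℤ => (τ ^ k) c).Nonempty := ⟨_, 0, rfl⟩
  set s := sSup (Set.range fun k : ℤ => (τ ^ k) c) with hs
  have h1 : (τ⁻¹ : ℝ ≃o ℝ) s < s := by
    have := hτ ((τ⁻¹ : ℝ ≃o ℝ) s)
    rwa [RelIso.apply_inv_self] at this
  obtain ⟨_, ⟨k, rfl⟩, hk⟩ := exists_lt_of_lt_csSup hne h1
  have h2 : s < (τ ^ (k + 1)) c := by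
    rw [add_comm, zpow_add, zpow_one, RelIso.mul_apply]
    have := τ.strictMono hk
    rwa [RelIso.apply_inv_self] at this
  exact absurd (le_csSup hb ⟨k + 1, rfl⟩) (not_le.2 h2)

theorem exists_zpow_lt (hτ : ∀ x, x < τ x) (c y : ℝ) : ∃ k : ℤ, (τ ^ k) c < y := by
  by_contra hcon
  push Not at hcon
  have hb : BddBelow (Set.range fun k : ℤ => (τ ^ k) c) := ⟨y, by rintro _ ⟨k, rfl⟩; exact hcon k⟩
  have hne : (Set.range fun k : ℤ => (τ ^ k) c).Nonempty := ⟨_, 0, rfl⟩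
  set s := sInf (Set.range fun k : ℤ => (τ ^ k) c) with hs
  obtain ⟨_, ⟨k, rfl⟩, hk⟩ := exists_lt_of_csInf_lt hne (hτ s)
  have h2 : (τ ^ (k - 1)) c < s := by
    have h3 : (τ ^ k) c = τ ((τ ^ (k - 1)) c) := by
      rw [← RelIso.mul_apply, ← zpow_one_add]
      congr 2
      ring
    have h4 : τ ((τ ^ (k - 1)) c) < τ s := by rw [← h3]; exact hk
    exact τ.lt_iff_lt.1 h4
  exact absurd (csInf_le hb ⟨k - 1, rfl⟩) (not_le.2 h2)

theorem exists_near (hτ : ∀ x, x < τ x) (c y : ℝ) :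
    ∃ k : ℤ, (τ ^ k) c ≤ y ∧ y < (τ ^ (k + 1)) c := by
  obtain ⟨u, hu⟩ := exists_lt_zpow hτ c y
  obtain ⟨l, hl⟩ := exists_zpow_lt hτ c y
  obtain ⟨k, hk, hk2⟩ := Int.exists_greatest_of_bdd (P := fun k : ℤ => (τ ^ k) c ≤ y)
    ⟨u, fun z hz => by
      by_contra hcon
      push Not at hcon
      have := (zpow_strictMono hτ c) hcon
      simp only at this
      linarith⟩ ⟨l, hl.le⟩
  refine ⟨k, hk, ?_⟩
  by_contra hcon
  push Not at hcon
  have := hk2 (k + 1) hcon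
  omega

/-- Extend an increasing map on `[0, N]` equivariantly. -/
theorem glue (hτ : ∀ x, x < τ x) (N : ℝ) (hN : 0 < N) (e : ℝ ≃o ℝ) (he : e N = τ (e 0)) :
    ∃ b : ℝ ≃o ℝ, (∀ x, b (x + N) = τ (b x)) ∧ ∀ x ∈ Set.Icc 0 N, b x = e x := by
  let F : ℝ → ℝ := fun x => (τ ^ ⌊x / N⌋) (e (x - ⌊x / N⌋ * N))
  have fr0 : ∀ x : ℝ, 0 ≤ x - ⌊x / N⌋ * N := fun x => by
    have h1 := Int.floor_le (x / N)
    rw [le_div_iff₀ hN] at h1
    linarith
  have frN : ∀ x : ℝ, x - ⌊x / N⌋ * N < N := fun x => by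
    have h1 := Int.lt_floor_add_one (x / N)
    rw [div_lt_iff₀ hN] at h1
    linarith
  have flo : ∀ (k : ℤ) (t : ℝ), 0 ≤ t → t < N → ⌊(t + k * N) / N⌋ = k := by
    intro k t h0 h1
    rw [Int.floor_eq_iff]
    constructor
    · rw [le_div_iff₀ hN]; linarith
    · rw [div_lt_iff₀ hN]; linarith
  have Fval : ∀ (k : ℤ) (t : ℝ), 0 ≤ t → t < N → F (t + k * N) = (τ ^ k) (e t) := by
    intro k t h0 h1
    simp only [F, flo k t h0 h1]
    congr 2
    ring
  have dec : ∀ x : ℝ, ∃ (k : ℤ) (t : ℝ), 0 ≤ t ∧ t < N ∧ x = t + k * N := fun x =>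
    ⟨⌊x / N⌋, x - ⌊x / N⌋ * N, fr0 x, frN x, by ring⟩
  have smono : StrictMono F := by
    intro x y hxy
    obtain ⟨k, t, h0, h1, rfl⟩ := dec x
    obtain ⟨l, s, g0, g1, rfl⟩ := dec y
    rw [Fval k t h0 h1, Fval l s g0 g1]
    rcases lt_trichotomy k l with hkl | rfl | hkl
    · calc (τ ^ k) (e t) < (τ ^ k) (e N) := (τ ^ k).strictMono (e.strictMono h1)
        _ = (τ ^ (k + 1)) (e 0) := by rw [he, ← RelIso.mul_apply, ← zpow_add_one]
        _ ≤ (τ ^ l) (e 0) := (zpow_strictMono hτ (e 0)).monotone (by omega)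
        _ ≤ (τ ^ l) (e s) := (τ ^ l).monotone (e.monotone g0)
    · exact (τ ^ k).strictMono (e.strictMono (by linarith))
    · exfalso
      have h2 : ((l : ℝ) + 1) ≤ k := by exact_mod_cast hkl
      nlinarith
  have surj : Function.Surjective F := by
    intro y
    obtain ⟨k, hk, hk2⟩ := exists_near hτ (e 0) y
    refine ⟨e.symm ((τ ^ k).symm y) + k * N, ?_⟩
    have h0 : 0 ≤ e.symm ((τ ^ k).symm y) := by
      rw [OrderIso.le_symm_apply, OrderIso.le_symm_apply]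
      exact hk
    have h1 : e.symm ((τ ^ k).symm y) < N := by
      rw [OrderIso.symm_apply_lt, OrderIso.symm_apply_lt, he, ← RelIso.mul_apply, ← zpow_add_one]
      exact hk2
    rw [Fval k _ h0 h1]
    simp
  refine ⟨StrictMono.orderIsoOfSurjective F smono surj, fun x => ?_, fun x hx => ?_⟩
  · obtain ⟨k, t, h0, h1, rfl⟩ := dec x
    show F (t + k * N + N) = τ (F (t + k * N))
    rw [show t + k * N + N = t + ((k + 1 : ℤ) : ℝ) * N by push_cast; ring, Fval _ t h0 h1,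
      Fval k t h0 h1, add_comm k 1, zpow_one_add, RelIso.mul_apply]
  · show F x = e x
    rcases eq_or_lt_of_le hx.2 with h | h
    · have := Fval 1 0 le_rfl hN
      rw [show (0 : ℝ) + ((1 : ℤ) : ℝ) * N = N by push_cast; ring, zpow_one, ← he] at this
      rw [h, this]
    · have := Fval 0 x hx.1 h
      simpa using this

end Run7.h824
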