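import Mathlib

/-!
# Periodic actions on the line and the second bounded cohomology

If `H_b^2(G; ℝ) = 0` and `Hom(G, ℝ) = 0`, then every action of `G` on the line by increasing
homeomorphisms which commute with a translation has a global fixed point.
-/

set_option autoImplicit false

namespace Run7.h824

/-- Vanishing of the bounded cohomology `H_b^{n+1}(G; ℝ)` with trivial real coefficients:
every bounded invariant homogeneous cocycle in `n + 2` variables is the coboundary of a bounded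
invariant cochain. -/
def HbVanishes (G : Type) [Group G] (n : ℕ) : Prop :=
  ∀ f : (Fin (n + 2) → G) → ℝ,
    (∃ C : ℝ, ∀ x, |f x| ≤ C) →
    (∀ (g : G) (x : Fin (n + 2) → G), f (fun j => g * x j) = f x) →
    (∀ x : Fin (n + 3) → G,
      ∑ i : Fin (n + 3), (-1 : ℝ) ^ (i : ℕ) * f (x ∘ Fin.succAbove i) = 0) →
    ∃ h : (Fin (n + 1) → G) → ℝ,
      (∃ C : ℝ, ∀ x, |h x| ≤ C) ∧
      (∀ (g : G) (x : Fin (n + 1) → G), h (fun j => g * x j) = h x) ∧
      ∀ x : Fin (n + 2) → G,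
        f x = ∑ i : Fin (n + 2), (-1 : ℝ) ^ (i : ℕ) * h (x ∘ Fin.succAbove i)

/-- If `H_b^2(G; ℝ) = 0` and `Hom(G, ℝ) = 0`, every quasimorphism is bounded. -/
theorem quasi_bounded {G : Type} [Group G] (hG : HbVanishes G 1)
    (hom : ∀ ψ : G →* Multiplicative ℝ, ψ = 1) (φ : G → ℝ) (D : ℝ)
    (hφ : ∀ g h, |φ (g * h) - φ g - φ h| ≤ D) : ∃ C : ℝ, ∀ g, |φ g| ≤ C := by
  obtain ⟨h, ⟨C, hC⟩, hinv, hd⟩ := hG
    (fun x => φ ((x 1)⁻¹ * x 2) - φ ((x 0)⁻¹ * x 2) + φ ((x 0)⁻¹ * x 1)) ⟨D, fun x => by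
      have h1 := hφ ((x 0)⁻¹ * x 1) ((x 1)⁻¹ * x 2)
      rw [show (x 0)⁻¹ * x 1 * ((x 1)⁻¹ * x 2) = (x 0)⁻¹ * x 2 by group] at h1
      rw [abs_le] at h1 ⊢
      constructor <;> linarith [h1.1, h1.2]⟩
    (fun g x => by
      simp only [mul_inv_rev, mul_assoc, inv_mul_cancel_left])
    (fun x => by
      have key : ∀ y : Fin 4 → G, ∑ i : Fin 4, (-1 : ℝ) ^ (i : ℕ) *
          (φ (((y ∘ Fin.succAbove i) 1)⁻¹ * (y ∘ Fin.succAbove i) 2) -
            φ (((y ∘ Fin.succAbove i) 0)⁻¹ * (y ∘ Fin.succAbove i) 2) +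
            φ (((y ∘ Fin.succAbove i) 0)⁻¹ * (y ∘ Fin.succAbove i) 1)) = 0 := by
        intro y
        have s0 : ∀ j : Fin 3, Fin.succAbove (0 : Fin 4) j = ![1, 2, 3] j := by decide
        have s1 : ∀ j : Fin 3, Fin.succAbove (1 : Fin 4) j = ![0, 2, 3] j := by decide
        have s2 : ∀ j : Fin 3, Fin.succAbove (2 : Fin 4) j = ![0, 1, 3] j := by decide
        have s3 : ∀ j : Fin 3, Fin.succAbove (3 : Fin 4) j = ![0, 1, 2] j := by decide
        rw [Fin.sum_univ_four]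
        simp only [Function.comp, s0, s1, s2, s3]
        simp
        norm_num
        ring
      exact key x)
  have hd' : ∀ x : Fin 3 → G, φ ((x 1)⁻¹ * x 2) - φ ((x 0)⁻¹ * x 2) + φ ((x 0)⁻¹ * x 1) =
      h ![x 1, x 2] - h ![x 0, x 2] + h ![x 0, x 1] := by
    intro x
    have h1 : φ ((x 1)⁻¹ * x 2) - φ ((x 0)⁻¹ * x 2) + φ ((x 0)⁻¹ * x 1) =
      ∑ i : Fin 3, (-1 : ℝ) ^ (i : ℕ) * h (x ∘ Fin.succAbove i) := hd x
    have e1 : (x ∘ Fin.succAbove (0 : Fin 3)) = ![x 1, x 2] := by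
      funext j; fin_cases j <;> rfl
    have e2 : (x ∘ Fin.succAbove (1 : Fin 3)) = ![x 0, x 2] := by
      funext j; fin_cases j <;> rfl
    have e3 : (x ∘ Fin.succAbove (2 : Fin 3)) = ![x 0, x 1] := by
      funext j; fin_cases j <;> rfl
    rw [h1, Fin.sum_univ_three, e1, e2, e3]
    simp
    ring
  have hinv' : ∀ g a b : G, h ![g * a, g * b] = h ![a, b] := by
    intro g a b
    have h1 := hinv g ![a, b]
    rw [← h1]
    congr 1
    funext j; fin_cases j <;> rfl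
  have hk : ∀ a b : G, φ (a * b) - h ![1, a * b] = (φ a - h ![1, a]) + (φ b - h ![1, b]) := by
    intro a b
    have h1 := hd' ![1, a, a * b]
    have h2 := hinv' a 1 b
    simp at h1
    rw [mul_one] at h2
    rw [h2] at h1
    linarith
  let ψ : G →* Multiplicative ℝ := MonoidHom.mk' (fun g => Multiplicative.ofAdd (φ g - h ![1, g]))
    (fun a b => by rw [← ofAdd_add, hk])
  refine ⟨C, fun g => ?_⟩
  have h1 : ψ g = 1 := by rw [hom ψ]; rfl
  have h2 : φ g - h ![1, g] = 0 := by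
    have : Multiplicative.ofAdd (φ g - h ![1, g]) = Multiplicative.ofAdd 0 := h1
    exact Multiplicative.ofAdd.injective this
  have h3 := hC ![1, g]
  rwa [show φ g = h ![1, g] by linarith]

theorem shift_int {a : ℝ ≃o ℝ} {N : ℝ} (h : ∀ x, a (x + N) = a x + N) (k : ℤ) (x : ℝ) :
    a (x + k * N) = a x + k * N := by
  induction k using Int.induction_on with
  | zero => simp
  | succ i ih =>
    have := h (x + i * N)
    push_cast at ih ⊢
    rw [show x + (i + 1) * N = x + i * N + N by ring, this, ih]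
    ring
  | pred i ih =>
    have := h (x + (-(i : ℝ) - 1) * N)
    push_cast at ih ⊢
    rw [show x + (-(i : ℝ) - 1) * N + N = x + -(i : ℝ) * N by ring, ih] at this
    linarith

/-- The global fixed point. -/
theorem exists_fixed_of_periodic {G : Type} [Group G] (hG : HbVanishes G 1)
    (hom : ∀ ψ : G →* Multiplicative ℝ, ψ = 1)
    (ρ : G →* (ℝ ≃o ℝ)) (N : ℝ) (hN : 0 < N) (hρ : ∀ g x, ρ g (x + N) = ρ g x + N) :
    ∃ p : ℝ, ∀ g, ρ g p = p := by
  obtain ⟨C, hC⟩ := quasi_bounded hG hom (fun g => ρ g 0) N (by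
    intro g h
    obtain ⟨k, z, hz0, hzN, hz⟩ : ∃ (k : ℤ) (z : ℝ), 0 ≤ z ∧ z < N ∧ ρ h 0 = z + k * N := by
      refine ⟨⌊ρ h 0 / N⌋, ρ h 0 - ⌊ρ h 0 / N⌋ * N, ?_, ?_, by ring⟩
      · have h1 := Int.floor_le (ρ h 0 / N)
        rw [le_div_iff₀ hN] at h1
        linarith
      · have h1 := Int.lt_floor_add_one (ρ h 0 / N)
        rw [div_lt_iff₀ hN] at h1
        linarith
    have h1 : ρ (g * h) 0 = ρ g z + k * N := by
      rw [map_mul, RelIso.mul_apply, hz, shift_int (hρ g)]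
    have h2 : ρ g 0 ≤ ρ g z := (ρ g).monotone hz0
    have h3 : ρ g z ≤ ρ g 0 + N := by
      rw [← hρ g 0, zero_add]
      exact (ρ g).monotone hzN.le
    show |ρ (g * h) 0 - ρ g 0 - ρ h 0| ≤ N
    rw [h1, hz, abs_le]
    constructor <;> linarith)
  have hbdd : BddAbove (Set.range fun g : G => ρ g 0) :=
    ⟨C, by rintro _ ⟨g, rfl⟩; exact (le_abs_self _).trans (hC g)⟩
  have hne : (Set.range fun g : G => ρ g 0).Nonempty := ⟨_, 1, rfl⟩
  refine ⟨sSup (Set.range fun g : G => ρ g 0), fun g => ?_⟩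
  have key : ∀ g : G, ρ g (sSup (Set.range fun g : G => ρ g 0)) ≤
      sSup (Set.range fun g : G => ρ g 0) := by
    intro g
    rw [← OrderIso.le_symm_apply]
    refine csSup_le hne ?_
    rintro _ ⟨h, rfl⟩
    rw [OrderIso.le_symm_apply]
    refine le_csSup hbdd ⟨g * h, ?_⟩
    simp only [map_mul, RelIso.mul_apply]
  refine le_antisymm (key g) ?_
  have h1 := (ρ g).monotone (key g⁻¹)
  rwa [← RelIso.mul_apply, ← map_mul, mul_inv_cancel, map_one, RelIso.one_apply] at h1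

end Run7.h824
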