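import Mathlib
import Pool.Agent.Run7.h824.Glue
import Pool.Agent.Run7.h824.Periodic

/-!
# Closing up actions of finitely presented groups on the line

A homeomorphism has finite local complexity near `+∞` if it looks in only finitely many ways on the
unit intervals `[n, n + 1]`, `n` large. A finitely presented group of such homeomorphisms also acts
on the line by homeomorphisms which commute with an integer translation, and locally the new action
looks like the old one.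
-/

set_option autoImplicit false

namespace Run7.h824

/-- `a` has finite local complexity near `+∞`, in terms of a finite colouring of the integers -/
def Flc (a : ℝ ≃o ℝ) : Prop :=
  ∃ (C : Type) (_ : Finite C) (c : ℤ → C) (n₀ : ℤ), ∀ m n : ℤ, n₀ ≤ m → n₀ ≤ n → c m = c n →
    ∀ x ∈ Set.Icc (0 : ℝ) 1, a (m + x) - m = a (n + x) - n

theorem Flc.disp {a : ℝ ≃o ℝ} (h : Flc a) : ∃ (D : ℕ) (n₀ : ℤ), ∀ x : ℝ, n₀ ≤ x →
    |a x - x| ≤ D := by
  obtain ⟨C, hC, c, n₀, hc⟩ := h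
  have hfin : (Set.range fun n : Set.Ici n₀ => a (n : ℤ) - (n : ℤ)).Finite := by
    refine Set.Finite.subset (Set.finite_range (fun q : Set.range (fun n : Set.Ici n₀ => c n) =>
      a ((q.2.choose : ℤ)) - ((q.2.choose : ℤ) : ℝ))) ?_
    rintro _ ⟨n, rfl⟩
    refine ⟨⟨c n, n, rfl⟩, ?_⟩
    have h1 : c (Exists.choose (⟨n, rfl⟩ : ∃ y : Set.Ici n₀, c y = c n) : Set.Ici n₀) = c n :=
      Exists.choose_spec (⟨n, rfl⟩ : ∃ y : Set.Ici n₀, c y = c n)
    have h2 := hc _ _ (Exists.choose (⟨n, rfl⟩ : ∃ y : Set.Ici n₀, c y = c n)).2 n.2 h1 0 (by simp)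
    simpa using h2
  obtain ⟨B, hB⟩ := hfin.isBounded.exists_norm_le
  obtain ⟨D, hD⟩ := exists_nat_gt (B + 1)
  refine ⟨D, n₀, fun x hx => ?_⟩
  have hx' : n₀ ≤ ⌊x⌋ := Int.le_floor.2 hx
  have h1 := hB _ ⟨⟨⌊x⌋, hx'⟩, rfl⟩
  have h2 := hB _ ⟨⟨⌊x⌋ + 1, (show n₀ ≤ ⌊x⌋ + 1 by omega)⟩, rfl⟩
  simp only [Real.norm_eq_abs, abs_le] at h1 h2
  push_cast at h2
  have h3 := a.monotone (Int.floor_le x)
  have h4 := a.monotone (Int.lt_floor_add_one x).le
  have h5 := Int.floor_le x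
  have h6 := Int.lt_floor_add_one x
  rw [abs_le]
  constructor <;> linarith [h1.1, h1.2, h2.1, h2.2]

theorem Flc.one : Flc 1 := ⟨Unit, inferInstance, fun _ => (), 0, fun m n _ _ _ x _ => by
  simp⟩

/-- the finite window -/
abbrev Win (D : ℕ) : Type := Finset.Icc (-(D : ℤ)) (D + 1)

theorem win_floor {D : ℕ} {y : ℝ} (h1 : -(D : ℝ) ≤ y) (h2 : y ≤ D + 1) :
    ⌊y⌋ ∈ Finset.Icc (-(D : ℤ)) (D + 1) := by
  rw [Finset.mem_Icc]
  constructor
  · rw [Int.le_floor]; push_cast; exact h1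
  · have := Int.floor_le y
    have h3 : (⌊y⌋ : ℝ) ≤ D + 1 := this.trans h2
    exact_mod_cast h3

theorem Flc.mul {a b : ℝ ≃o ℝ} (ha : Flc a) (hb : Flc b) : Flc (a * b) := by
  obtain ⟨D, n₂, hD⟩ := hb.disp
  obtain ⟨C, hC, c, n₀, hc⟩ := ha
  obtain ⟨C', hC', c', n₁, hc'⟩ := hb
  refine ⟨C' × (Win D → C), inferInstance, fun n => (c' n, fun k => c (n + k)),
    max (n₀ + D) (max n₁ n₂), ?_⟩
  intro m n hm hn hmn x hx
  simp only [max_le_iff] at hm hn
  simp only [Prod.mk.injEq] at hmn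
  obtain ⟨h1, h2⟩ := hmn
  have h3 := hc' m n hm.2.1 hn.2.1 h1 x hx
  set y := b (n + x) - n with hy
  have hbm : b (m + x) = m + y := by linarith
  have hbn : b (n + x) = n + y := by linarith
  have hnr : (n₂ : ℝ) ≤ n := by exact_mod_cast hn.2.2
  have hyD := hD (n + x) (by linarith [hx.1])
  rw [abs_le] at hyD
  have hw := win_floor (D := D) (y := y) (by linarith [hx.1]) (by linarith [hx.2])
  have h4 := congrFun h2 ⟨⌊y⌋, hw⟩
  rw [Finset.mem_Icc] at hw
  have h5 := hc _ _ (show n₀ ≤ m + ⌊y⌋ by omega) (show n₀ ≤ n + ⌊y⌋ by omega) h4 (Int.fract y)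
    ⟨Int.fract_nonneg y, (Int.fract_lt_one y).le⟩
  rw [RelIso.mul_apply, RelIso.mul_apply, hbm, hbn]
  have h6 : ((m + ⌊y⌋ : ℤ) : ℝ) + Int.fract y = m + y := by
    push_cast
    rw [add_assoc, Int.floor_add_fract]
  have h7 : ((n + ⌊y⌋ : ℤ) : ℝ) + Int.fract y = n + y := by
    push_cast
    rw [add_assoc, Int.floor_add_fract]
  rw [h6, h7] at h5
  push_cast at h5
  linarith

theorem Flc.inv {a : ℝ ≃o ℝ} (ha : Flc a) : Flc a⁻¹ := by
  obtain ⟨D, n₂, hD⟩ := ha.disp
  obtain ⟨C, hC, c, n₀, hc⟩ := ha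
  refine ⟨Win D → C, inferInstance, fun n => fun k => c (n + k),
    max (n₀ + D) ⌈a n₂⌉, ?_⟩
  intro m n hm hn h2 x hx
  simp only [max_le_iff] at hm hn
  set y := (a⁻¹ : ℝ ≃o ℝ) (n + x) - n with hy
  have han : a (n + y) = n + x := by
    rw [hy, add_sub_cancel, RelIso.apply_inv_self]
  have hny : (n₂ : ℝ) ≤ n + y := by
    rw [← a.le_iff_le, han]
    have h1 := Int.le_ceil (a n₂)
    have h3 : ((⌈a n₂⌉ : ℤ) : ℝ) ≤ n := by exact_mod_cast hn.2
    linarith [hx.1]
  have hyD := hD (n + y) hny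
  rw [han, abs_le] at hyD
  have hw := win_floor (D := D) (y := y) (by linarith [hx.1]) (by linarith [hx.2])
  have h4 := congrFun h2 ⟨⌊y⌋, hw⟩
  rw [Finset.mem_Icc] at hw
  have h5 := hc _ _ (show n₀ ≤ m + ⌊y⌋ by omega) (show n₀ ≤ n + ⌊y⌋ by omega) h4 (Int.fract y)
    ⟨Int.fract_nonneg y, (Int.fract_lt_one y).le⟩
  have h6 : ((m + ⌊y⌋ : ℤ) : ℝ) + Int.fract y = m + y := by
    push_cast
    rw [add_assoc, Int.floor_add_fract]
  have h7 : ((n + ⌊y⌋ : ℤ) : ℝ) + Int.fract y = n + y := by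
    push_cast
    rw [add_assoc, Int.floor_add_fract]
  rw [h6, h7, han] at h5
  push_cast at h5
  have h8 : a (m + y) = m + x := by linarith
  rw [← h8, RelIso.inv_apply_self]
  ring

/-- evaluation of words -/
theorem lift_mk_cons {G : Type*} [Group G] {m : ℕ} (f : Fin m → G) (p : Fin m × Bool)
    (L : List (Fin m × Bool)) :
    FreeGroup.lift f (FreeGroup.mk (p :: L)) =
      (if p.2 then f p.1 else (f p.1)⁻¹) * FreeGroup.lift f (FreeGroup.mk L) := by
  rw [FreeGroup.lift_mk, FreeGroup.lift_mk, List.map_cons, List.prod_cons]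
  cases p.2 <;> simp

/-- The closed up action agrees with the old one on short words. -/
theorem words_agree {m : ℕ} (a b : Fin m → (ℝ ≃o ℝ)) (N D R : ℕ)
    (hD : ∀ j, ∀ x : ℝ, -((R : ℝ) + D + 1) ≤ x → |a j x - x| ≤ D)
    (hab : ∀ j, ∀ t ∈ Set.Icc (-(R : ℝ)) (N + R), b j t = a j t)
    (L : List (Fin m × Bool)) (hL : L.length * D ≤ R) :
    ∀ t ∈ Set.Icc (0 : ℝ) N,
      FreeGroup.lift b (FreeGroup.mk L) t = FreeGroup.lift a (FreeGroup.mk L) t ∧
      FreeGroup.lift a (FreeGroup.mk L) t ∈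
        Set.Icc (-((L.length * D : ℕ) : ℝ)) (N + ((L.length * D : ℕ) : ℝ)) := by
  induction L with
  | nil =>
    intro t ht
    rw [← FreeGroup.one_eq_mk, map_one, map_one]
    refine ⟨rfl, ?_⟩
    simpa using ht
  | cons p L ih =>
    intro t ht
    have hlen : L.length * D + D ≤ R := by
      rw [List.length_cons, add_mul, one_mul] at hL
      exact hL
    obtain ⟨h1, h2⟩ := ih (by omega) t ht
    rw [lift_mk_cons, lift_mk_cons, RelIso.mul_apply, RelIso.mul_apply, h1]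
    set z := FreeGroup.lift a (FreeGroup.mk L) t with hz
    have hR : ((L.length * D : ℕ) : ℝ) + D ≤ R := by exact_mod_cast hlen
    have hl2 : (((p :: L).length * D : ℕ) : ℝ) = ((L.length * D : ℕ) : ℝ) + D := by
      rw [List.length_cons]; push_cast; ring
    have hD0 : (0 : ℝ) ≤ D := Nat.cast_nonneg D
    rw [hl2]
    cases hp : p.2
    · simp only [Bool.false_eq_true, if_false]
      set w := ((a p.1)⁻¹ : ℝ ≃o ℝ) z with hw
      have haw : a p.1 w = z := by rw [hw, RelIso.apply_inv_self]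
      have hwlow : -((R : ℝ) + D + 1) ≤ w := by
        rw [← (a p.1).le_iff_le, haw]
        have h3 := hD p.1 (-((R : ℝ) + D + 1)) le_rfl
        rw [abs_le] at h3
        linarith [h2.1, h3.2]
      have hd := hD p.1 w hwlow
      rw [haw, abs_le] at hd
      have hwm : w ∈ Set.Icc (-(((L.length * D : ℕ) : ℝ) + D))
          (N + (((L.length * D : ℕ) : ℝ) + D)) :=
        ⟨by linarith [h2.1, hd.1, hd.2], by linarith [h2.2, hd.1, hd.2]⟩
      have hbw : b p.1 w = z := by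
        rw [hab p.1 w ⟨by linarith [hwm.1], by linarith [hwm.2]⟩, haw]
      refine ⟨?_, hwm⟩
      rw [← hbw, RelIso.inv_apply_self]
    · simp only [if_true]
      have hd := hD p.1 z (by linarith [h2.1])
      rw [abs_le] at hd
      refine ⟨hab p.1 z ⟨by linarith [h2.1], by linarith [h2.2]⟩, ?_, ?_⟩
      · linarith [h2.1, hd.1]
      · linarith [h2.2, hd.2]

theorem lift_periodic {m : ℕ} {b : Fin m → (ℝ ≃o ℝ)} {N : ℝ}
    (hb : ∀ j x, b j (x + N) = b j x + N) (w : FreeGroup (Fin m)) (x : ℝ) :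
    FreeGroup.lift b w (x + N) = FreeGroup.lift b w x + N := by
  have key : FreeGroup.lift b w ∈ Subgroup.centralizer {OrderIso.addRight N} := by
    have h1 : (FreeGroup.lift b).range ≤ Subgroup.centralizer {OrderIso.addRight N} := by
      rw [FreeGroup.range_lift_eq_closure, Subgroup.closure_le]
      rintro _ ⟨j, rfl⟩
      rw [SetLike.mem_coe, Subgroup.mem_centralizer_singleton_iff]
      ext y
      exact hb j y
    exact h1 ⟨w, rfl⟩
  rw [Subgroup.mem_centralizer_singleton_iff] at key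
  exact DFunLike.congr_fun key x

theorem closing {m : ℕ} (a : Fin m → (ℝ ≃o ℝ)) (hflc : ∀ j, Flc (a j))
    (rels : Finset (FreeGroup (Fin m))) (hrel : ∀ r ∈ rels, FreeGroup.lift a r = 1) :
    ∃ (L : ℕ) (n₀ : ℤ), ∀ n₁ : ℤ, n₀ ≤ n₁ → ∃ (N : ℕ) (b : Fin m → (ℝ ≃o ℝ)) (p : ℤ),
      0 < N ∧ n₁ ≤ p ∧ p + N ≤ n₁ + L ∧ (∀ j x, b j (x + N) = b j x + N) ∧
      (∀ r ∈ rels, FreeGroup.lift b r = 1) ∧
      ∀ j, ∀ t ∈ Set.Icc (0 : ℝ) N, b j t = a j (p + t) - p := by
  classical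
  choose D' n' hD' using fun j => (hflc j).disp
  obtain ⟨D, hDD⟩ : ∃ D : ℕ, ∀ j, D' j ≤ D :=
    ⟨∑ j, D' j, fun j => Finset.single_le_sum (f := D') (fun _ _ => Nat.zero_le _)
      (Finset.mem_univ j)⟩
  obtain ⟨n₂, hn₂⟩ : ∃ n₂ : ℤ, ∀ j, n' j ≤ n₂ :=
    ⟨∑ j, |n' j|, fun j => (le_abs_self _).trans (Finset.single_le_sum (f := fun j => |n' j|)
      (fun _ _ => abs_nonneg _) (Finset.mem_univ j))⟩
  have hD : ∀ j, ∀ x : ℝ, n₂ ≤ x → |a j x - x| ≤ D := fun j x hx => by
    refine (hD' j x ?_).trans (by exact_mod_cast hDD j)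
    exact le_trans (by exact_mod_cast hn₂ j) hx
  obtain ⟨R, hR⟩ : ∃ R : ℕ, ∀ r ∈ rels, r.toWord.length * D ≤ R := by
    refine ⟨∑ r ∈ rels, r.toWord.length * D, fun r hr => ?_⟩
    exact Finset.single_le_sum (f := fun r : FreeGroup (Fin m) => r.toWord.length * D)
      (fun _ _ => Nat.zero_le _) hr
  choose C hC c n'' hc using hflc
  obtain ⟨n₃, hn₃⟩ : ∃ n₃ : ℤ, ∀ j, n'' j ≤ n₃ :=
    ⟨∑ j, |n'' j|, fun j => (le_abs_self _).trans (Finset.single_le_sum (f := fun j => |n'' j|)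
      (fun _ _ => abs_nonneg _) (Finset.mem_univ j))⟩
  have : ∀ j, Finite (C j) := hC
  have : Fintype (∀ j : Fin m, Finset.Icc (-(R : ℤ)) R → C j) := Fintype.ofFinite _
  refine ⟨Fintype.card (∀ j : Fin m, Finset.Icc (-(R : ℤ)) R → C j),
    max (n₂ + (R + D + 1)) (n₃ + R), fun n₁ hn₁ => ?_⟩
  rw [max_le_iff] at hn₁
  set K := Fintype.card (∀ j : Fin m, Finset.Icc (-(R : ℤ)) R → C j) with hK
  obtain ⟨p, q, hpq, hp1, hq1, hW⟩ : ∃ p q : ℤ, p < q ∧ n₁ ≤ p ∧ q ≤ n₁ + K ∧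
      ∀ j, ∀ k ∈ Finset.Icc (-(R : ℤ)) R, c j (p + k) = c j (q + k) := by
    obtain ⟨s, t, hne, heq⟩ := Fintype.exists_ne_map_eq_of_card_lt
      (fun n : Fin (K + 1) => fun (j : Fin m) (k : Finset.Icc (-(R : ℤ)) R) =>
        c j ((n₁ + (n : ℕ)) + k)) (by rw [Fintype.card_fin]; omega)
    have hs := s.2
    have ht := t.2
    have hne' : (s : ℕ) ≠ t := fun h => hne (Fin.ext h)
    rcases lt_or_gt_of_ne hne' with h | h
    · exact ⟨n₁ + (s : ℕ), n₁ + (t : ℕ), by omega, by omega, by omega,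
        fun j k hk => congrFun (congrFun heq j) ⟨k, hk⟩⟩
    · exact ⟨n₁ + (t : ℕ), n₁ + (s : ℕ), by omega, by omega, by omega,
        fun j k hk => (congrFun (congrFun heq j) ⟨k, hk⟩).symm⟩
  obtain ⟨N, hN⟩ : ∃ N : ℕ, (N : ℤ) = q - p := ⟨(q - p).toNat, by omega⟩
  have hN0 : 0 < N := by omega
  have hNR : (0 : ℝ) < N := by exact_mod_cast hN0
  have hqp : (q : ℝ) = p + N := by
    have : (q : ℤ) = p + N := by omega
    rw [this]; push_cast; ring
  -- the translated homeomorphisms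
  let a' : Fin m → (ℝ ≃o ℝ) := fun j =>
    (OrderIso.addRight (p : ℝ))⁻¹ * a j * OrderIso.addRight (p : ℝ)
  have ha' : ∀ j t, a' j t = a j (p + t) - p := by
    intro j t
    show (OrderIso.addRight (p : ℝ)).symm (a j (t + p)) = _
    rw [OrderIso.addRight_symm, OrderIso.addRight_apply, add_comm t]
    ring
  have hper : ∀ j, ∀ t ∈ Set.Icc (-(R : ℝ)) (R + 1), a' j (t + N) = a' j t + N := by
    intro j t ht
    -- write t = k + x
    obtain ⟨k, x, hk, hx, rfl⟩ : ∃ (k : ℤ) (x : ℝ), k ∈ Finset.Icc (-(R : ℤ)) R ∧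
        x ∈ Set.Icc (0 : ℝ) 1 ∧ t = k + x := by
      rcases eq_or_lt_of_le ht.2 with h | h
      · refine ⟨R, 1, by simp, by simp, by rw [h]; push_cast; ring⟩
      · refine ⟨⌊t⌋, Int.fract t, ?_, ⟨Int.fract_nonneg t, (Int.fract_lt_one t).le⟩,
          (Int.floor_add_fract t).symm⟩
        rw [Finset.mem_Icc]
        constructor
        · rw [Int.le_floor]; push_cast; exact ht.1
        · have : ⌊t⌋ < (R : ℤ) + 1 := by rw [Int.floor_lt]; push_cast; exact h
          omega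
    have hk' := hk
    rw [Finset.mem_Icc] at hk'
    have hn3 := hn₃ j
    have h1 := hc j (p + k) (q + k) (by omega) (by omega) (hW j k hk) x hx
    rw [ha', ha']
    push_cast at h1
    rw [hqp] at h1
    rw [show (p : ℝ) + (k + x + N) = p + N + k + x by ring,
      show (p : ℝ) + (k + x) = p + k + x by ring]
    linarith
  have hRnn : (0 : ℝ) ≤ R := Nat.cast_nonneg R
  have hτ : ∀ x, x < OrderIso.addRight (N : ℝ) x := fun x => by
    rw [OrderIso.addRight_apply]; linarith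
  have hglue := fun j => glue hτ N hNR (a' j) (by
    rw [OrderIso.addRight_apply]
    have := hper j 0 ⟨by linarith, by linarith⟩
    rwa [zero_add] at this)
  choose b hb1 hb2 using hglue
  have hbper : ∀ j x, b j (x + N) = b j x + N := fun j x => by
    rw [hb1 j x, OrderIso.addRight_apply]
  have hup : ∀ j, ∀ k : ℕ, ∀ t : ℝ, 0 ≤ t → t ≤ k * N → t ≤ N + R → b j t = a' j t := by
    intro j k
    induction k with
    | zero =>
      intro t h0 h1 _
      apply hb2 j t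
      constructor
      · exact h0
      · push_cast at h1; linarith
    | succ k ih =>
      intro t h0 h1 h2
      by_cases h3 : t ≤ N
      · exact hb2 j t ⟨h0, h3⟩
      · push Not at h3
        have h4 := ih (t - N) (by linarith) (by push_cast at h1; linarith) (by linarith)
        have h5 := hbper j (t - N)
        have h6 := hper j (t - N) ⟨by linarith, by linarith⟩
        rw [sub_add_cancel] at h5 h6
        rw [h5, h6, h4]
  have hdown : ∀ j, ∀ k : ℕ, ∀ t : ℝ, -(k * N : ℝ) ≤ t → -(R : ℝ) ≤ t → t ≤ N + R →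
      b j t = a' j t := by
    intro j k
    induction k with
    | zero =>
      intro t h0 h1 h2
      obtain ⟨k, hk⟩ := exists_nat_ge (t / N)
      rw [div_le_iff₀ hNR] at hk
      exact hup j k t (by simpa using h0) hk h2
    | succ k ih =>
      intro t h0 h1 h2
      by_cases h3 : 0 ≤ t
      · obtain ⟨k, hk⟩ := exists_nat_ge (t / N)
        rw [div_le_iff₀ hNR] at hk
        exact hup j k t h3 hk h2
      · push Not at h3
        have h4 := ih (t + N) (by push_cast at h0; linarith) (by linarith) (by linarith)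
        have h5 := hbper j t
        have h6 := hper j t ⟨h1, by linarith⟩
        linarith
  have hab : ∀ j, ∀ t ∈ Set.Icc (-(R : ℝ)) (N + R), b j t = a' j t := by
    intro j t ht
    obtain ⟨k, hk⟩ := exists_nat_ge (R / N : ℝ)
    rw [div_le_iff₀ hNR] at hk
    exact hdown j k t (by linarith [ht.1]) ht.1 ht.2
  have hD2 : ∀ j, ∀ x : ℝ, -((R : ℝ) + D + 1) ≤ x → |a' j x - x| ≤ D := by
    intro j x hx
    rw [ha']
    have hp2 : ((n₂ + (R + D + 1) : ℤ) : ℝ) ≤ p := by exact_mod_cast hn₁.1.trans hp1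
    push_cast at hp2
    have := hD j (p + x) (by linarith)
    rwa [show a j (p + x) - p - x = a j (p + x) - (p + x) by ring]
  have hlift : ∀ w, FreeGroup.lift a' w =
      (OrderIso.addRight (p : ℝ))⁻¹ * FreeGroup.lift a w * OrderIso.addRight (p : ℝ) := by
    intro w
    have : FreeGroup.lift a' = (MulAut.conj (OrderIso.addRight (p : ℝ))⁻¹).toMonoidHom.comp
        (FreeGroup.lift a) := by
      ext1 j
      simp [a']
    rw [this]
    simp
  refine ⟨N, b, p, hN0, hp1, by omega, hbper, fun r hr => ?_, fun j t ht => ?_⟩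
  · have h0 : ∀ t ∈ Set.Icc (0 : ℝ) N, FreeGroup.lift b r t = t := by
      intro t ht
      have h1 := (words_agree a' b N D R hD2 hab r.toWord (hR r hr) t ht).1
      rw [FreeGroup.mk_toWord] at h1
      rw [h1, hlift, hrel r hr]
      simp
    ext t
    obtain ⟨k, s, hs0, hsN, rfl⟩ : ∃ (k : ℤ) (s : ℝ), 0 ≤ s ∧ s ≤ N ∧ t = s + k * N := by
      refine ⟨⌊t / N⌋, t - ⌊t / N⌋ * N, ?_, ?_, by ring⟩
      · have h1 := Int.floor_le (t / N)
        rw [le_div_iff₀ hNR] at h1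
        linarith
      · have h1 := Int.lt_floor_add_one (t / N)
        rw [div_lt_iff₀ hNR] at h1
        linarith
    rw [shift_int (lift_periodic hbper r), h0 s ⟨hs0, hsN⟩]
    rfl
  · rw [hb2 j t ht, ha']

end Run7.h824
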