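import Mathlib
import Pool.Agent.Run7.h824.Closing

/-!
# Finitely presented groups acting on the line with finite local complexity
-/

set_option autoImplicit false

namespace Run7.h824

/-- `a` looks in only finitely many ways on the intervals `[τ ^ n x₀, τ ^ (n + 1) x₀]`, `n ≥ 0` -/
def FlcAt (τ : ℝ ≃o ℝ) (x₀ : ℝ) (a : ℝ ≃o ℝ) : Prop :=
  (Set.range fun (n : ℕ) (x : Set.Icc x₀ (τ x₀)) => ((τ ^ n)⁻¹ : ℝ ≃o ℝ) (a ((τ ^ n) x))).Finite

/-- normalisation of the deck transformation -/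
theorem exists_chart {τ : ℝ ≃o ℝ} (hτ : ∀ x, x < τ x) (x₀ : ℝ) :
    ∃ ψ : ℝ ≃o ℝ, (∀ x, ψ (x + 1) = τ (ψ x)) ∧ ψ 0 = x₀ := by
  have hpos : 0 < τ x₀ - x₀ := by linarith [hτ x₀]
  let e : ℝ ≃o ℝ := (OrderIso.mulRight₀ (τ x₀ - x₀) hpos).trans (OrderIso.addRight x₀)
  have he : ∀ x, e x = x * (τ x₀ - x₀) + x₀ := fun x => rfl
  obtain ⟨ψ, h1, h2⟩ := glue hτ 1 one_pos e (by rw [he, he]; simp)
  refine ⟨ψ, h1, ?_⟩
  rw [h2 0 (by simp), he]
  simp

theorem chart_pow {τ ψ : ℝ ≃o ℝ} (h : ∀ x, ψ (x + 1) = τ (ψ x)) (n : ℕ) (x : ℝ) :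
    ψ (x + n) = (τ ^ n) (ψ x) := by
  induction n with
  | zero => simp
  | succ n ih =>
    rw [Nat.cast_succ, ← add_assoc, h, ih, pow_succ', RelIso.mul_apply]

theorem flc_of_flcAt {τ ψ a : ℝ ≃o ℝ} {x₀ : ℝ} (h : ∀ x, ψ (x + 1) = τ (ψ x))
    (h0 : ψ 0 = x₀) (ha : FlcAt τ x₀ a) : Flc (ψ⁻¹ * a * ψ) := by
  let P : ℕ → (Set.Icc x₀ (τ x₀)) → ℝ := fun n x => ((τ ^ n)⁻¹ : ℝ ≃o ℝ) (a ((τ ^ n) x))
  have hfin : Finite (Set.range P) := ha
  refine ⟨Set.range P, hfin, fun n => ⟨P n.toNat, Set.mem_range_self _⟩, 0,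
    fun m n hm hn hmn x hx => ?_⟩
  obtain ⟨m, rfl⟩ := Int.eq_ofNat_of_zero_le hm
  obtain ⟨n, rfl⟩ := Int.eq_ofNat_of_zero_le hn
  have hmn' : P (Int.toNat (Int.ofNat m)) = P (Int.toNat (Int.ofNat n)) :=
    congrArg Subtype.val hmn
  have hx' : ψ x ∈ Set.Icc x₀ (τ x₀) := by
    constructor
    · rw [← h0]; exact ψ.monotone hx.1
    · rw [← h0, ← h 0, zero_add]; exact ψ.monotone hx.2
  have h1 := congrFun hmn' ⟨ψ x, hx'⟩
  simp only [P, Int.ofNat_eq_natCast, Int.toNat_natCast] at h1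
  have key : ∀ k : ℕ, (ψ⁻¹ * a * ψ : ℝ ≃o ℝ) (((k : ℤ) : ℝ) + x) - ((k : ℤ) : ℝ) =
      (ψ⁻¹ : ℝ ≃o ℝ) (((τ ^ k)⁻¹ : ℝ ≃o ℝ) (a ((τ ^ k) (ψ x)))) := by
    intro k
    set z := ((τ ^ k)⁻¹ : ℝ ≃o ℝ) (a ((τ ^ k) (ψ x))) with hz
    have h2 : a ((τ ^ k) (ψ x)) = (τ ^ k) z := (RelIso.apply_inv_self _ _).symm
    have h3 : (τ ^ k) z = ψ ((ψ⁻¹ : ℝ ≃o ℝ) z + k) := by
      have h4 : ψ ((ψ⁻¹ : ℝ ≃o ℝ) z) = z := RelIso.apply_inv_self _ _
      rw [chart_pow h, h4]
    rw [RelIso.mul_apply, RelIso.mul_apply, Int.cast_natCast, add_comm (k : ℝ) x, chart_pow h, h2,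
      h3, RelIso.inv_apply_self]
    ring
  exact (key m).trans (h1 ▸ (key n).symm)

/-- A simple group which acts on the line with a point that is moved has no nonzero homomorphism
to `ℝ`. -/
theorem simple_hom {G : Type} [Group G] (hG : IsSimpleGroup G) (ψ : G →* Multiplicative ℝ) :
    ψ = 1 := by
  rcases hG.eq_bot_or_eq_top_of_normal ψ.ker inferInstance with h | h
  · exfalso
    have hinj : Function.Injective ψ := (MonoidHom.ker_eq_bot_iff ψ).1 h
    have hcomm : ∀ a b : G, a * b = b * a := fun a b => hinj (by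
      rw [map_mul, map_mul, mul_comm])
    obtain ⟨g, hg⟩ := exists_ne (1 : G)
    have hnorm : (Subgroup.zpowers (g ^ 2)).Normal := ⟨fun n hn x => by
      rwa [hcomm x n, mul_assoc, mul_inv_cancel, mul_one]⟩
    have hψg : Multiplicative.toAdd (ψ g) ≠ 0 := by
      intro h0
      apply hg
      apply hinj
      rw [map_one]
      exact Multiplicative.toAdd.injective h0
    rcases hG.eq_bot_or_eq_top_of_normal _ hnorm with h1 | h1
    · rw [Subgroup.zpowers_eq_bot] at h1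
      have h2 := congrArg (fun x => Multiplicative.toAdd (ψ x)) h1
      simp only [map_pow, toAdd_pow, map_one, toAdd_one] at h2
      apply hψg
      simpa using h2
    · have h2 : g ∈ Subgroup.zpowers (g ^ 2) := by rw [h1]; trivial
      obtain ⟨k, hk⟩ := h2
      have h3 := congrArg (fun x => Multiplicative.toAdd (ψ x)) hk
      simp only [map_zpow, map_pow, toAdd_zpow, toAdd_pow] at h3
      have h4 : ((2 * k - 1 : ℤ) : ℝ) * Multiplicative.toAdd (ψ g) = 0 := by
        push_cast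
        simp only [zsmul_eq_mul, nsmul_eq_mul] at h3
        push_cast at h3
        linarith
      rcases mul_eq_zero.1 h4 with h5 | h5
      · have h6 : (2 * k - 1 : ℤ) = 0 := by exact_mod_cast h5
        omega
      · exact hψg h5
  · ext g
    have : g ∈ ψ.ker := by rw [h]; trivial
    exact this

theorem main {G : Type} [Group G] (m : ℕ) (rels : Finset (FreeGroup (Fin m)))
    (e : G ≃* PresentedGroup (rels : Set (FreeGroup (Fin m))))
    (hom : ∀ ψ : G →* Multiplicative ℝ, ψ = 1) (ρ : G →* (ℝ ≃o ℝ)) (τ : ℝ ≃o ℝ)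
    (hτ : ∀ x, x < τ x) (x₀ : ℝ) (S : Set G) (hS : Subgroup.closure S = ⊤)
    (hflc : ∀ s ∈ S, FlcAt τ x₀ (ρ s))
    (hfix : ∀ L : ℕ, ∃ n : ℕ, ∀ x ∈ Set.Icc ((τ ^ n) x₀) ((τ ^ (n + L)) x₀), ∃ g, ρ g x ≠ x) :
    ¬ HbVanishes G 1 := by
  intro hvan
  obtain ⟨ψ, hψ, hψ0⟩ := exists_chart hτ x₀
  let ρ' : G →* (ℝ ≃o ℝ) := (MulAut.conj ψ⁻¹).toMonoidHom.comp ρ
  have hρ' : ∀ g, ρ' g = ψ⁻¹ * ρ g * ψ := fun g => by simp [ρ']
  have hall : ∀ g, Flc (ρ' g) := by
    let H : Subgroup G :=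
      { carrier := {g | Flc (ρ' g)}
        mul_mem' := fun {a b} ha hb => by
          show Flc (ρ' (a * b))
          rw [map_mul]
          exact Flc.mul ha hb
        one_mem' := by
          show Flc (ρ' 1)
          rw [map_one]
          exact Flc.one
        inv_mem' := fun {a} ha => by
          show Flc (ρ' a⁻¹)
          rw [map_inv]
          exact Flc.inv ha }
    have h1 : Subgroup.closure S ≤ H := by
      rw [Subgroup.closure_le]
      intro s hs
      show Flc (ρ' s)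
      rw [hρ']
      exact flc_of_flcAt hψ hψ0 (hflc s hs)
    intro g
    have : g ∈ Subgroup.closure S := by rw [hS]; trivial
    exact h1 this
  let a : Fin m → (ℝ ≃o ℝ) := fun j => ρ' (e.symm (PresentedGroup.of j))
  have hlift : ∀ w : FreeGroup (Fin m), FreeGroup.lift a w = ρ' (e.symm (PresentedGroup.mk _ w)) := by
    intro w
    have : FreeGroup.lift a = (ρ'.comp e.symm.toMonoidHom).comp
        (PresentedGroup.mk (rels : Set (FreeGroup (Fin m)))) := by
      ext1 j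
      simp [a, PresentedGroup.of]
    rw [this]
    rfl
  obtain ⟨L, n₀, hcl⟩ := closing a (fun j => hall _) rels (fun r hr => by
    rw [hlift, PresentedGroup.one_of_mem (by exact_mod_cast hr), map_one, map_one])
  obtain ⟨n, hn⟩ := hfix (L + n₀.toNat)
  obtain ⟨N, b, p, hN, hp1, hp2, hbper, hbrel, hba⟩ := hcl (max n n₀) (le_max_right _ _)
  have hN' : (0 : ℝ) < N := by exact_mod_cast hN
  have hbrel' : ∀ r ∈ (rels : Set (FreeGroup (Fin m))), FreeGroup.lift b r = 1 :=
    fun r hr => hbrel r (by exact_mod_cast hr)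
  let ρ'' : G →* (ℝ ≃o ℝ) := (PresentedGroup.toGroup hbrel').comp e.toMonoidHom
  have hρ'' : ∀ w : FreeGroup (Fin m), ρ'' (e.symm (PresentedGroup.mk _ w)) =
      FreeGroup.lift b w := by
    intro w
    show PresentedGroup.toGroup hbrel' (e (e.symm (PresentedGroup.mk _ w))) = _
    rw [MulEquiv.apply_symm_apply]
    rfl
  obtain ⟨x, hx⟩ := exists_fixed_of_periodic hvan hom ρ'' N hN' (fun g y => by
    obtain ⟨w, hw⟩ := PresentedGroup.mk_surjective _ (e g)
    have : g = e.symm (PresentedGroup.mk _ w) := by rw [hw, MulEquiv.symm_apply_apply]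
    rw [this, hρ'']
    exact lift_periodic hbper w y)
  obtain ⟨k, t, ht0, htN, rfl⟩ : ∃ (k : ℤ) (t : ℝ), 0 ≤ t ∧ t ≤ N ∧ x = t + k * N := by
    refine ⟨⌊x / N⌋, x - ⌊x / N⌋ * N, ?_, ?_, by ring⟩
    · have h1 := Int.floor_le (x / N)
      rw [le_div_iff₀ hN'] at h1
      linarith
    · have h1 := Int.lt_floor_add_one (x / N)
      rw [div_lt_iff₀ hN'] at h1
      linarith
  have hbt : ∀ j, b j t = t := by
    intro j
    have h1 := hx (e.symm (PresentedGroup.mk _ (FreeGroup.of j)))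
    rw [hρ'', FreeGroup.lift_apply_of, shift_int (hbper j)] at h1
    linarith
  have hat : ∀ j, a j (p + t) = p + t := by
    intro j
    have h1 := hba j t ⟨ht0, htN⟩
    rw [hbt] at h1
    linarith
  have hgt : ∀ g, ρ' g (p + t) = p + t := by
    let H : Subgroup G :=
      { carrier := {g | ρ' g (p + t) = p + t}
        mul_mem' := fun {a b} ha hb => by
          show ρ' (a * b) (p + t) = p + t
          rw [map_mul, RelIso.mul_apply, hb, ha]
        one_mem' := by
          show ρ' 1 (p + t) = p + t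
          rw [map_one]; rfl
        inv_mem' := fun {a} ha => by
          show ρ' a⁻¹ (p + t) = p + t
          have ha' : ρ' a (p + t) = p + t := ha
          rw [map_inv]
          conv_lhs => rw [← ha']
          exact RelIso.inv_apply_self _ _ }
    intro g
    obtain ⟨w, hw⟩ := PresentedGroup.mk_surjective _ (e g)
    have hgw : g = e.symm (PresentedGroup.mk _ w) := by rw [hw, MulEquiv.symm_apply_apply]
    have hw2 : w ∈ H.comap (e.symm.toMonoidHom.comp (PresentedGroup.mk _)) := by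
      have h1 : (⊤ : Subgroup (FreeGroup (Fin m))) ≤
          H.comap (e.symm.toMonoidHom.comp (PresentedGroup.mk _)) := by
        rw [← FreeGroup.closure_range_of, Subgroup.closure_le]
        rintro _ ⟨j, rfl⟩
        exact hat j
      exact h1 trivial
    rw [hgw]
    exact hw2
  -- the fixed point in the original action
  have hnp : (n : ℤ) ≤ p := (le_max_left _ _).trans hp1
  have hnp' : (n : ℝ) ≤ p := by exact_mod_cast hnp
  have hpL : p + N ≤ n + (L + n₀.toNat) := by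
    have h1 := hp2
    have h2 : max (n : ℤ) n₀ ≤ n + n₀.toNat := by
      rw [max_le_iff]
      constructor
      · omega
      · have := Int.self_le_toNat n₀
        omega
    omega
  have hpL' : (p : ℝ) + N ≤ n + (L + n₀.toNat : ℕ) := by exact_mod_cast hpL
  obtain ⟨g, hg⟩ := hn (ψ (p + t)) ⟨by
      rw [← hψ0, ← chart_pow hψ, zero_add]
      exact ψ.monotone (by linarith), by
      rw [← hψ0, ← chart_pow hψ, zero_add]
      apply ψ.monotone
      push_cast at hpL' ⊢
      linarith⟩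
  apply hg
  have h1 := hgt g
  rw [hρ', RelIso.mul_apply, RelIso.mul_apply] at h1
  have h2 := congrArg ψ h1
  rwa [RelIso.apply_inv_self] at h2

end Run7.h824
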