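import Mathlib
import Pool.Agent.Run7.h824.FlcMain

/-!
# Finitely presented groups acting on the line: local periods

If every finite set of elements of a finitely presented group `G` which acts on the line commutes
with some fixed-point-free homeomorphism near some point, then `G` has another action on the line
which commutes with a translation, and which agrees with the old one on some fundamental interval.
-/

set_option autoImplicit false

namespace Run7.h824

/-- every quasimorphism is bounded -/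
def QuasiBdd (G : Type) [Group G] : Prop :=
  ∀ φ : G → ℝ, (∃ D : ℝ, ∀ g h, |φ (g * h) - φ g - φ h| ≤ D) → ∃ C : ℝ, ∀ g, |φ g| ≤ C

theorem exists_fixed_of_quasi {G : Type} [Group G] (hG : QuasiBdd G)
    (ρ : G →* (ℝ ≃o ℝ)) (N : ℝ) (hN : 0 < N) (hρ : ∀ g x, ρ g (x + N) = ρ g x + N) :
    ∃ p : ℝ, ∀ g, ρ g p = p := by
  obtain ⟨C, hC⟩ := hG (fun g => ρ g 0) ⟨N, by
    intro g h
    obtain ⟨k, z, hz0, hzN, hz⟩ : ∃ (k : ℤ) (z : ℝ), 0 ≤ z ∧ z < N ∧ ρ h 0 = z + k * N := by
      refine ⟨⌊ρ h 0 / N⌋, ρ h 0 - ⌊ρ h 0 / N⌋ * N, ?_, ?_, by ring⟩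
      · have h1 := Int.floor_le (ρ h 0 / N)
        rw [le_div_iff₀ hN] at h1
        linarith
      · have h1 := Int.lt_floor_add_one (ρ h 0 / N)
        rw [div_lt_iff₀ hN] at h1
        linarith
    have h1 : ρ (g * h) 0 = ρ g z + k * N := by
      rw [map_mul, RelIso.mul_apply, hz, shift_int (hρ g)]
    have h2 : ρ g 0 ≤ ρ g z := (ρ g).monotone hz0
    have h3 : ρ g z ≤ ρ g 0 + N := by
      rw [← hρ g 0, zero_add]
      exact (ρ g).monotone hzN.le
    show |ρ (g * h) 0 - ρ g 0 - ρ h 0| ≤ N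
    rw [h1, hz, abs_le]
    constructor <;> linarith⟩
  have hbdd : BddAbove (Set.range fun g : G => ρ g 0) :=
    ⟨C, by rintro _ ⟨g, rfl⟩; exact (le_abs_self _).trans (hC g)⟩
  have hne : (Set.range fun g : G => ρ g 0).Nonempty := ⟨_, 1, rfl⟩
  refine ⟨sSup (Set.range fun g : G => ρ g 0), fun g => ?_⟩
  have key : ∀ g : G, ρ g (sSup (Set.range fun g : G => ρ g 0)) ≤
      sSup (Set.range fun g : G => ρ g 0) := by
    intro g
    rw [← OrderIso.le_symm_apply]
    refine csSup_le hne ?_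
    rintro _ ⟨h, rfl⟩
    rw [OrderIso.le_symm_apply]
    refine le_csSup hbdd ⟨g * h, ?_⟩
    simp only [map_mul, RelIso.mul_apply]
  refine le_antisymm (key g) ?_
  have h1 := (ρ g).monotone (key g⁻¹)
  rwa [← RelIso.mul_apply, ← map_mul, mul_inv_cancel, map_one, RelIso.one_apply] at h1

/-- The closed up action. `P` is a set of words closed under taking suffixes. -/
theorem closing_local {m : ℕ} (a : Fin m → (ℝ ≃o ℝ)) (K : ℕ)
    (hper : ∀ L L₁ L₂ : List (Fin m × Bool), L.length ≤ K + 1 → L₁.length ≤ K → L₂.length ≤ K →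
      ∀ y : ℝ, FreeGroup.lift a (FreeGroup.mk L₁) 0 ≤ y →
        y ≤ FreeGroup.lift a (FreeGroup.mk L₂) 0 →
        FreeGroup.lift a (FreeGroup.mk L) (y + 1) = FreeGroup.lift a (FreeGroup.mk L) y + 1) :
    ∃ b : Fin m → (ℝ ≃o ℝ), (∀ j x, b j (x + 1) = b j x + 1) ∧
      (∀ j, ∀ t ∈ Set.Icc (0 : ℝ) 1, b j t = a j t) ∧
      ∀ L : List (Fin m × Bool), L.length ≤ K → ∀ t ∈ Set.Icc (0 : ℝ) 1,
        FreeGroup.lift b (FreeGroup.mk L) t = FreeGroup.lift a (FreeGroup.mk L) t := by
  have hgen : ∀ (j : Fin m) (y : ℝ), FreeGroup.lift a (FreeGroup.mk [(j, true)]) y = a j y := by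
    intro j y
    rw [show FreeGroup.mk [(j, true)] = FreeGroup.of j from rfl, FreeGroup.lift_apply_of]
  have hnil : ∀ y : ℝ, FreeGroup.lift a (FreeGroup.mk []) y = y := by
    intro y
    rw [← FreeGroup.one_eq_mk, map_one, RelIso.one_apply]
  have hτ : ∀ x, x < OrderIso.addRight (1 : ℝ) x := fun x => by
    rw [OrderIso.addRight_apply]; linarith
  have hpj : ∀ (j : Fin m) (L₁ L₂ : List (Fin m × Bool)), L₁.length ≤ K → L₂.length ≤ K →
      ∀ y : ℝ, FreeGroup.lift a (FreeGroup.mk L₁) 0 ≤ y →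
        y ≤ FreeGroup.lift a (FreeGroup.mk L₂) 0 → a j (y + 1) = a j y + 1 := by
    intro j L₁ L₂ h1 h2 y h3 h4
    have := hper [(j, true)] L₁ L₂ (by simp) h1 h2 y h3 h4
    rwa [hgen, hgen] at this
  have hglue := fun j => glue hτ 1 one_pos (a j) (by
    rw [OrderIso.addRight_apply]
    have := hpj j [] [] (by simp) (by simp) 0 (by rw [hnil]) (by rw [hnil])
    rwa [zero_add] at this)
  choose b hb1 hb2 using hglue
  have hbper : ∀ j x, b j (x + 1) = b j x + 1 := fun j x => by
    rw [hb1 j x, OrderIso.addRight_apply]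
  have hup : ∀ j, ∀ k : ℕ, ∀ t : ℝ, 0 ≤ t → t ≤ k →
      (∃ L₂ : List (Fin m × Bool), L₂.length ≤ K ∧
        t ≤ FreeGroup.lift a (FreeGroup.mk L₂) 0 + 1) → b j t = a j t := by
    intro j k
    induction k with
    | zero =>
      intro t h0 h1 _
      apply hb2 j t
      constructor
      · exact h0
      · push_cast at h1; linarith
    | succ k ih =>
      rintro t h0 h1 ⟨L₂, hL₂, h2⟩
      by_cases h3 : t ≤ 1
      · exact hb2 j t ⟨h0, h3⟩
      · push Not at h3
        have h4 := ih (t - 1) (by linarith) (by push_cast at h1; linarith)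
          ⟨L₂, hL₂, by linarith⟩
        have h5 := hbper j (t - 1)
        have h6 := hpj j [] L₂ (by simp) hL₂ (t - 1) (by rw [hnil]; linarith) (by linarith)
        rw [sub_add_cancel] at h5 h6
        rw [h5, h6, h4]
  have hdown : ∀ j, ∀ k : ℕ, ∀ t : ℝ, -(k : ℝ) ≤ t →
      (∃ L₁ : List (Fin m × Bool), L₁.length ≤ K ∧
        FreeGroup.lift a (FreeGroup.mk L₁) 0 ≤ t) →
      (∃ L₂ : List (Fin m × Bool), L₂.length ≤ K ∧
        t ≤ FreeGroup.lift a (FreeGroup.mk L₂) 0 + 1) → b j t = a j t := by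
    intro j k
    induction k with
    | zero =>
      intro t h0 _ h2
      obtain ⟨k, hk⟩ := exists_nat_ge t
      exact hup j k t (by simpa using h0) hk h2
    | succ k ih =>
      rintro t h0 ⟨L₁, hL₁, h1⟩ h2
      by_cases h3 : 0 ≤ t
      · obtain ⟨k, hk⟩ := exists_nat_ge t
        exact hup j k t h3 hk h2
      · push Not at h3
        have h4 := ih (t + 1) (by push_cast at h0; linarith) ⟨L₁, hL₁, by linarith⟩
          ⟨[], by simp, by rw [hnil]; linarith⟩
        have h5 := hbper j t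
        have h6 := hpj j L₁ [] hL₁ (by simp) t h1 (by rw [hnil]; exact h3.le)
        linarith
  have hab : ∀ j, ∀ t : ℝ,
      (∃ L₁ : List (Fin m × Bool), L₁.length ≤ K ∧
        FreeGroup.lift a (FreeGroup.mk L₁) 0 ≤ t) →
      (∃ L₂ : List (Fin m × Bool), L₂.length ≤ K ∧
        t ≤ FreeGroup.lift a (FreeGroup.mk L₂) 0 + 1) → b j t = a j t := by
    intro j t h1 h2
    obtain ⟨k, hk⟩ := exists_nat_ge (-t)
    exact hdown j k t (by linarith) h1 h2
  -- the orbit of a point of the fundamental interval under a short word stays in the good region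
  have hreg : ∀ L : List (Fin m × Bool), L.length ≤ K → ∀ t ∈ Set.Icc (0 : ℝ) 1,
      (∃ L₁ : List (Fin m × Bool), L₁.length ≤ K ∧
        FreeGroup.lift a (FreeGroup.mk L₁) 0 ≤ FreeGroup.lift a (FreeGroup.mk L) t) ∧
      (∃ L₂ : List (Fin m × Bool), L₂.length ≤ K ∧
        FreeGroup.lift a (FreeGroup.mk L) t ≤ FreeGroup.lift a (FreeGroup.mk L₂) 0 + 1) := by
    intro L hL t ht
    refine ⟨⟨L, hL, (FreeGroup.lift a (FreeGroup.mk L)).monotone ht.1⟩, ⟨L, hL, ?_⟩⟩
    have h1 := hper L [] [] (by omega) (by simp) (by simp) 0 (by rw [hnil]) (by rw [hnil])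
    rw [zero_add] at h1
    rw [← h1]
    exact (FreeGroup.lift a (FreeGroup.mk L)).monotone ht.2
  refine ⟨b, hbper, hb2, fun L => ?_⟩
  induction L with
  | nil =>
    intro _ t _
    rw [← FreeGroup.one_eq_mk, map_one, map_one]
  | cons p L ih =>
    intro hL t ht
    have hL' : L.length ≤ K := by
      rw [List.length_cons] at hL; omega
    have h1 := ih hL' t ht
    have hr := hreg (p :: L) hL t ht
    have hr' := hreg L hL' t ht
    rw [lift_mk_cons, lift_mk_cons, RelIso.mul_apply, RelIso.mul_apply, h1]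
    rw [lift_mk_cons, RelIso.mul_apply] at hr
    set z := FreeGroup.lift a (FreeGroup.mk L) t with hz
    cases hp : p.2
    · rw [hp] at hr
      simp only [Bool.false_eq_true, if_false] at hr ⊢
      set w := ((a p.1)⁻¹ : ℝ ≃o ℝ) z with hw
      have haw : a p.1 w = z := by rw [hw, RelIso.apply_inv_self]
      have hbw : b p.1 w = z := by rw [hab p.1 w hr.1 hr.2, haw]
      rw [← hbw, RelIso.inv_apply_self]
    · simp only [if_true]
      exact hab p.1 z hr'.1 hr'.2

theorem recur_main {G : Type} [Group G] (m : ℕ) (rels : Finset (FreeGroup (Fin m)))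
    (e : G ≃* PresentedGroup (rels : Set (FreeGroup (Fin m))))
    (ρ : G →* (ℝ ≃o ℝ))
    (hrec : ∀ F : Finset G, ∃ (τ : ℝ ≃o ℝ) (x : ℝ), (∀ y, y < τ y) ∧
      (∀ f ∈ F, ∀ g ∈ F, ∀ h ∈ F, ∀ y ∈ Set.Icc (ρ g x) (ρ h x), ρ f (τ y) = τ (ρ f y)) ∧
      ∀ y ∈ Set.Icc x (τ x), ∃ g, ρ g y ≠ y) :
    ¬ QuasiBdd G := by
  classical
  intro hq
  obtain ⟨K, hK⟩ : ∃ K : ℕ, ∀ r ∈ rels, r.toWord.length ≤ K := by
    refine ⟨∑ r ∈ rels, r.toWord.length, fun r hr => ?_⟩
    exact Finset.single_le_sum (f := fun r : FreeGroup (Fin m) => r.toWord.length)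
      (fun _ _ => Nat.zero_le _) hr
  have hfin : {L : List (Fin m × Bool) | L.length ≤ K + 1}.Finite :=
    List.finite_length_le _ _
  let word : List (Fin m × Bool) → G := fun L => e.symm (PresentedGroup.mk _ (FreeGroup.mk L))
  obtain ⟨τ, x₀, hτ, hcomm, hnofix⟩ := hrec (hfin.toFinset.image word)
  have hmem : ∀ L : List (Fin m × Bool), L.length ≤ K + 1 →
      word L ∈ hfin.toFinset.image word := fun L hL =>
    Finset.mem_image_of_mem _ (by simpa using hL)
  obtain ⟨ψ, hψ, hψ0⟩ := exists_chart hτ x₀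
  let ρ' : G →* (ℝ ≃o ℝ) := (MulAut.conj ψ⁻¹).toMonoidHom.comp ρ
  have hρ' : ∀ g, ρ' g = ψ⁻¹ * ρ g * ψ := fun g => by simp [ρ']
  have hρψ : ∀ g y, ψ (ρ' g y) = ρ g (ψ y) := by
    intro g y
    rw [hρ', RelIso.mul_apply, RelIso.mul_apply, RelIso.apply_inv_self]
  let a : Fin m → (ℝ ≃o ℝ) := fun j => ρ' (e.symm (PresentedGroup.of j))
  have hlift : ∀ w : FreeGroup (Fin m), FreeGroup.lift a w = ρ' (e.symm (PresentedGroup.mk _ w)) := by
    intro w
    have : FreeGroup.lift a = (ρ'.comp e.symm.toMonoidHom).comp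
        (PresentedGroup.mk (rels : Set (FreeGroup (Fin m)))) := by
      ext1 j
      simp [a, PresentedGroup.of]
    rw [this]
    rfl
  obtain ⟨b, hbper, hba, hbw⟩ := closing_local a K (by
    intro L L₁ L₂ hL hL₁ hL₂ y h1 h2
    rw [hlift] at h1 h2 ⊢
    have h3 := hcomm (word L) (hmem L hL) (word L₁) (hmem L₁ (by omega)) (word L₂)
      (hmem L₂ (by omega)) (ψ y) ⟨by
        rw [← hψ0, ← hρψ]
        exact ψ.monotone h1, by
        rw [← hψ0, ← hρψ]
        exact ψ.monotone h2⟩
    apply ψ.injective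
    rw [hψ, hρψ, hρψ, hψ]
    exact h3)
  have hbrel : ∀ r ∈ (rels : Set (FreeGroup (Fin m))), FreeGroup.lift b r = 1 := by
    intro r hr
    have hr' : r ∈ rels := by exact_mod_cast hr
    have h0 : ∀ t ∈ Set.Icc (0 : ℝ) 1, FreeGroup.lift b r t = t := by
      intro t ht
      have h1 := hbw r.toWord (hK r hr') t ht
      rw [FreeGroup.mk_toWord] at h1
      rw [h1, hlift, PresentedGroup.one_of_mem hr, map_one, map_one, RelIso.one_apply]
    ext t
    have h1 := shift_int (lift_periodic hbper r) ⌊t⌋ (Int.fract t)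
    rw [h0 _ ⟨Int.fract_nonneg t, (Int.fract_lt_one t).le⟩, mul_one, Int.fract_add_floor] at h1
    exact h1
  let ρ'' : G →* (ℝ ≃o ℝ) := (PresentedGroup.toGroup hbrel).comp e.toMonoidHom
  have hρ'' : ∀ w : FreeGroup (Fin m), ρ'' (e.symm (PresentedGroup.mk _ w)) =
      FreeGroup.lift b w := by
    intro w
    show PresentedGroup.toGroup hbrel (e (e.symm (PresentedGroup.mk _ w))) = _
    rw [MulEquiv.apply_symm_apply]
    rfl
  obtain ⟨x, hx⟩ := exists_fixed_of_quasi hq ρ'' 1 one_pos (fun g y => by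
    obtain ⟨w, hw⟩ := PresentedGroup.mk_surjective _ (e g)
    have : g = e.symm (PresentedGroup.mk _ w) := by rw [hw, MulEquiv.symm_apply_apply]
    rw [this, hρ'']
    exact lift_periodic hbper w y)
  set t := Int.fract x with ht
  have ht0 : 0 ≤ t := Int.fract_nonneg x
  have ht1 : t ≤ 1 := (Int.fract_lt_one x).le
  have hbt : ∀ j, b j t = t := by
    intro j
    have h1 := hx (e.symm (PresentedGroup.mk _ (FreeGroup.of j)))
    rw [hρ'', FreeGroup.lift_apply_of] at h1
    have h2 := shift_int (hbper j) ⌊x⌋ (Int.fract x)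
    rw [mul_one, Int.fract_add_floor, h1] at h2
    have h3 := Int.fract_add_floor x
    rw [← ht] at h2 h3
    linarith
  have hat : ∀ j, a j t = t := by
    intro j
    rw [← hba j t ⟨ht0, ht1⟩, hbt]
  have hgt : ∀ g, ρ' g t = t := by
    let H : Subgroup G :=
      { carrier := {g | ρ' g t = t}
        mul_mem' := fun {a b} ha hb => by
          show ρ' (a * b) t = t
          rw [map_mul, RelIso.mul_apply, hb, ha]
        one_mem' := by
          show ρ' 1 t = t
          rw [map_one]; rfl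
        inv_mem' := fun {a} ha => by
          show ρ' a⁻¹ t = t
          have ha' : ρ' a t = t := ha
          rw [map_inv]
          conv_lhs => rw [← ha']
          exact RelIso.inv_apply_self _ _ }
    intro g
    obtain ⟨w, hw⟩ := PresentedGroup.mk_surjective _ (e g)
    have hgw : g = e.symm (PresentedGroup.mk _ w) := by rw [hw, MulEquiv.symm_apply_apply]
    have hw2 : w ∈ H.comap (e.symm.toMonoidHom.comp (PresentedGroup.mk _)) := by
      have h1 : (⊤ : Subgroup (FreeGroup (Fin m))) ≤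
          H.comap (e.symm.toMonoidHom.comp (PresentedGroup.mk _)) := by
        rw [← FreeGroup.closure_range_of, Subgroup.closure_le]
        rintro _ ⟨j, rfl⟩
        exact hat j
      exact h1 trivial
    rw [hgw]
    exact hw2
  obtain ⟨g, hg⟩ := hnofix (ψ t) ⟨by
      rw [← hψ0]
      exact ψ.monotone ht0, by
      rw [← hψ0, ← hψ, zero_add]
      exact ψ.monotone ht1⟩
  apply hg
  rw [← hρψ, hgt]

end Run7.h824
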