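import Mathlib
import Pool.Agent.Run7.h824.Recur

/-!
# Finitely presented groups acting on the line with finite local complexity, quasimorphisms
-/

set_option autoImplicit false

namespace Run7.h824

theorem flc_main {G : Type} [Group G] (m : ℕ) (rels : Finset (FreeGroup (Fin m)))
    (e : G ≃* PresentedGroup (rels : Set (FreeGroup (Fin m))))
    (ρ : G →* (ℝ ≃o ℝ)) (τ : ℝ ≃o ℝ)
    (hτ : ∀ x, x < τ x) (x₀ : ℝ) (S : Set G) (hS : Subgroup.closure S = ⊤)
    (hflc : ∀ s ∈ S, FlcAt τ x₀ (ρ s))
    (hfix : ∀ L : ℕ, ∃ n : ℕ, ∀ x ∈ Set.Icc ((τ ^ n) x₀) ((τ ^ (n + L)) x₀), ∃ g, ρ g x ≠ x) :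
    ¬ QuasiBdd G := by
  intro hvan
  obtain ⟨ψ, hψ, hψ0⟩ := exists_chart hτ x₀
  let ρ' : G →* (ℝ ≃o ℝ) := (MulAut.conj ψ⁻¹).toMonoidHom.comp ρ
  have hρ' : ∀ g, ρ' g = ψ⁻¹ * ρ g * ψ := fun g => by simp [ρ']
  have hall : ∀ g, Flc (ρ' g) := by
    let H : Subgroup G :=
      { carrier := {g | Flc (ρ' g)}
        mul_mem' := fun {a b} ha hb => by
          show Flc (ρ' (a * b))
          rw [map_mul]
          exact Flc.mul ha hb
        one_mem' := by
          show Flc (ρ' 1)
          rw [map_one]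
          exact Flc.one
        inv_mem' := fun {a} ha => by
          show Flc (ρ' a⁻¹)
          rw [map_inv]
          exact Flc.inv ha }
    have h1 : Subgroup.closure S ≤ H := by
      rw [Subgroup.closure_le]
      intro s hs
      show Flc (ρ' s)
      rw [hρ']
      exact flc_of_flcAt hψ hψ0 (hflc s hs)
    intro g
    have : g ∈ Subgroup.closure S := by rw [hS]; trivial
    exact h1 this
  let a : Fin m → (ℝ ≃o ℝ) := fun j => ρ' (e.symm (PresentedGroup.of j))
  have hlift : ∀ w : FreeGroup (Fin m), FreeGroup.lift a w = ρ' (e.symm (PresentedGroup.mk _ w)) := by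
    intro w
    have : FreeGroup.lift a = (ρ'.comp e.symm.toMonoidHom).comp
        (PresentedGroup.mk (rels : Set (FreeGroup (Fin m)))) := by
      ext1 j
      simp [a, PresentedGroup.of]
    rw [this]
    rfl
  obtain ⟨L, n₀, hcl⟩ := closing a (fun j => hall _) rels (fun r hr => by
    rw [hlift, PresentedGroup.one_of_mem (by exact_mod_cast hr), map_one, map_one])
  obtain ⟨n, hn⟩ := hfix (L + n₀.toNat)
  obtain ⟨N, b, p, hN, hp1, hp2, hbper, hbrel, hba⟩ := hcl (max n n₀) (le_max_right _ _)
  have hN' : (0 : ℝ) < N := by exact_mod_cast hN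
  have hbrel' : ∀ r ∈ (rels : Set (FreeGroup (Fin m))), FreeGroup.lift b r = 1 :=
    fun r hr => hbrel r (by exact_mod_cast hr)
  let ρ'' : G →* (ℝ ≃o ℝ) := (PresentedGroup.toGroup hbrel').comp e.toMonoidHom
  have hρ'' : ∀ w : FreeGroup (Fin m), ρ'' (e.symm (PresentedGroup.mk _ w)) =
      FreeGroup.lift b w := by
    intro w
    show PresentedGroup.toGroup hbrel' (e (e.symm (PresentedGroup.mk _ w))) = _
    rw [MulEquiv.apply_symm_apply]
    rfl
  obtain ⟨x, hx⟩ := exists_fixed_of_quasi hvan ρ'' N hN' (fun g y => by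
    obtain ⟨w, hw⟩ := PresentedGroup.mk_surjective _ (e g)
    have : g = e.symm (PresentedGroup.mk _ w) := by rw [hw, MulEquiv.symm_apply_apply]
    rw [this, hρ'']
    exact lift_periodic hbper w y)
  obtain ⟨k, t, ht0, htN, rfl⟩ : ∃ (k : ℤ) (t : ℝ), 0 ≤ t ∧ t ≤ N ∧ x = t + k * N := by
    refine ⟨⌊x / N⌋, x - ⌊x / N⌋ * N, ?_, ?_, by ring⟩
    · have h1 := Int.floor_le (x / N)
      rw [le_div_iff₀ hN'] at h1
      linarith
    · have h1 := Int.lt_floor_add_one (x / N)
      rw [div_lt_iff₀ hN'] at h1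
      linarith
  have hbt : ∀ j, b j t = t := by
    intro j
    have h1 := hx (e.symm (PresentedGroup.mk _ (FreeGroup.of j)))
    rw [hρ'', FreeGroup.lift_apply_of, shift_int (hbper j)] at h1
    linarith
  have hat : ∀ j, a j (p + t) = p + t := by
    intro j
    have h1 := hba j t ⟨ht0, htN⟩
    rw [hbt] at h1
    linarith
  have hgt : ∀ g, ρ' g (p + t) = p + t := by
    let H : Subgroup G :=
      { carrier := {g | ρ' g (p + t) = p + t}
        mul_mem' := fun {a b} ha hb => by
          show ρ' (a * b) (p + t) = p + t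
          rw [map_mul, RelIso.mul_apply, hb, ha]
        one_mem' := by
          show ρ' 1 (p + t) = p + t
          rw [map_one]; rfl
        inv_mem' := fun {a} ha => by
          show ρ' a⁻¹ (p + t) = p + t
          have ha' : ρ' a (p + t) = p + t := ha
          rw [map_inv]
          conv_lhs => rw [← ha']
          exact RelIso.inv_apply_self _ _ }
    intro g
    obtain ⟨w, hw⟩ := PresentedGroup.mk_surjective _ (e g)
    have hgw : g = e.symm (PresentedGroup.mk _ w) := by rw [hw, MulEquiv.symm_apply_apply]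
    have hw2 : w ∈ H.comap (e.symm.toMonoidHom.comp (PresentedGroup.mk _)) := by
      have h1 : (⊤ : Subgroup (FreeGroup (Fin m))) ≤
          H.comap (e.symm.toMonoidHom.comp (PresentedGroup.mk _)) := by
        rw [← FreeGroup.closure_range_of, Subgroup.closure_le]
        rintro _ ⟨j, rfl⟩
        exact hat j
      exact h1 trivial
    rw [hgw]
    exact hw2
  -- the fixed point in the original action
  have hnp : (n : ℤ) ≤ p := (le_max_left _ _).trans hp1
  have hnp' : (n : ℝ) ≤ p := by exact_mod_cast hnp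
  have hpL : p + N ≤ n + (L + n₀.toNat) := by
    have h1 := hp2
    have h2 : max (n : ℤ) n₀ ≤ n + n₀.toNat := by
      rw [max_le_iff]
      constructor
      · omega
      · have := Int.self_le_toNat n₀
        omega
    omega
  have hpL' : (p : ℝ) + N ≤ n + (L + n₀.toNat : ℕ) := by exact_mod_cast hpL
  obtain ⟨g, hg⟩ := hn (ψ (p + t)) ⟨by
      rw [← hψ0, ← chart_pow hψ, zero_add]
      exact ψ.monotone (by linarith), by
      rw [← hψ0, ← chart_pow hψ, zero_add]
      apply ψ.monotone
      push_cast at hpL' ⊢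
      linarith⟩
  apply hg
  have h1 := hgt g
  rw [hρ', RelIso.mul_apply, RelIso.mul_apply] at h1
  have h2 := congrArg ψ h1
  rwa [RelIso.apply_inv_self] at h2


theorem not_hbVanishes {G : Type} [Group G] (hom : ∀ ψ : G →* Multiplicative ℝ, ψ = 1)
    (h : ¬ QuasiBdd G) : ¬ HbVanishes G 1 := fun hG => h (fun φ ⟨D, hD⟩ =>
  quasi_bounded hG hom φ D hD)

end Run7.h824
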